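import Pool.Agent.Lib.MP_4fbe7c_an.ND.Base
import Pool.Agent.Lib.MP_4fbe7c_an.UL.H33.Dvf

/-!
Project ND, module DVF (helper31): the time derivative of the functional.
-/

set_option autoImplicit false

open Set MeasureTheory

namespace Pool.Agent.Lib.MP_4fbe7c_an.ND.H31

open Pool.Agent.Lib.MP_4fbe7c_an.UL Pool.Agent.Lib.MP_4fbe7c_an.ND

/-! ### The pointwise identities for vectors -/

theorem inner_eq {p : ℕ} (a b : Eu p) : inner ℝ a b = ∑ i, a i * b i := by
  simp [PiLp.inner_apply, mul_comm]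

/-- The logarithmic part at one point. -/
theorem vec_log {p : ℕ} (n : ℕ) (r η P : ℕ → ℝ) (Pv Rv : ℕ → Eu p) (ρ₀ θ : ℝ) (θ' : Eu p)
    (hρ : ρ₀ ≠ 0) (hθ : θ ≠ 0) (hP : ∀ k, k ≤ n → P k ≠ 0) :
    (∑ k ∈ Finset.range (n + 1), (θ * (Lm r η k - Lm r η (k + 1))) *
        (inner ℝ (Pv k) (Rv k) / P k ^ 2))
      - (∑ k ∈ Finset.range (n + 1),
          inner ℝ ((η k * r k - η (k + 1) * r (k + 1)) • θ') (Rv k) / P k)
      - ρ₀ * θ * inner ℝ (θ⁻¹ • θ') ((P n)⁻¹ • Pv n - θ⁻¹ • θ')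
      = ρ₀ * θ * ∑ i, Qlog n r η (fun k => P k / P n) (fun k => Pv k i / P n)
          (fun k => Rv k i / (ρ₀ * P n)) ((θ⁻¹ • θ') i) := by
  have key : ∀ i, ρ₀ * θ * Qlog n r η (fun k => P k / P n) (fun k => Pv k i / P n)
          (fun k => Rv k i / (ρ₀ * P n)) ((θ⁻¹ • θ') i) =
      (∑ k ∈ Finset.range (n + 1), (θ * (Lm r η k - Lm r η (k + 1))) *
        (Pv k i / P k * (Rv k i / P k)))
      - (∑ k ∈ Finset.range (n + 1), ((η k * r k - η (k + 1) * r (k + 1)) * θ' i) *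
          (Rv k i / P k))
      - ρ₀ * θ * ((θ' i / θ) * (Pv n i / P n - θ' i / θ)) := by
    intro i
    have e : (θ⁻¹ • θ') i = θ' i / θ := by
      rw [PiLp.smul_apply, smul_eq_mul, div_eq_inv_mul]
    rw [e]
    exact (UL.H33.point_log n r η P (fun k => Pv k i) (fun k => Rv k i) ρ₀ θ (θ' i) hρ hθ
      hP).symm
  rw [Finset.mul_sum, Finset.sum_congr rfl (fun i _ => key i), Finset.sum_sub_distrib,
    Finset.sum_sub_distrib]
  have a1 : (∑ k ∈ Finset.range (n + 1), (θ * (Lm r η k - Lm r η (k + 1))) *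
        (inner ℝ (Pv k) (Rv k) / P k ^ 2)) =
      ∑ i, ∑ k ∈ Finset.range (n + 1), (θ * (Lm r η k - Lm r η (k + 1))) *
        (Pv k i / P k * (Rv k i / P k)) := by
    rw [Finset.sum_comm]
    refine Finset.sum_congr rfl fun k hk => ?_
    have hk' : P k ≠ 0 := hP k (Nat.lt_succ_iff.mp (Finset.mem_range.mp hk))
    rw [inner_eq, Finset.sum_div, Finset.mul_sum]
    refine Finset.sum_congr rfl fun i _ => ?_
    field_simp
  have a2 : (∑ k ∈ Finset.range (n + 1),
          inner ℝ ((η k * r k - η (k + 1) * r (k + 1)) • θ') (Rv k) / P k) =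
      ∑ i, ∑ k ∈ Finset.range (n + 1), ((η k * r k - η (k + 1) * r (k + 1)) * θ' i) *
          (Rv k i / P k) := by
    rw [Finset.sum_comm]
    refine Finset.sum_congr rfl fun k hk => ?_
    have hk' : P k ≠ 0 := hP k (Nat.lt_succ_iff.mp (Finset.mem_range.mp hk))
    rw [inner_eq, Finset.sum_div]
    refine Finset.sum_congr rfl fun i _ => ?_
    rw [PiLp.smul_apply, smul_eq_mul]
    field_simp
  have a3 : ρ₀ * θ * inner ℝ (θ⁻¹ • θ') ((P n)⁻¹ • Pv n - θ⁻¹ • θ') =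
      ∑ i, ρ₀ * θ * ((θ' i / θ) * (Pv n i / P n - θ' i / θ)) := by
    rw [inner_eq, Finset.mul_sum]
    refine Finset.sum_congr rfl fun i _ => ?_
    simp only [PiLp.sub_apply, PiLp.smul_apply, smul_eq_mul, div_eq_inv_mul]
  rw [a1, a2, a3]

/-- The second part at one point. -/
theorem vec_a {p : ℕ} (n c : ℕ) (r P : ℕ → ℝ) (Pv Rv : ℕ → Eu p) (ρ₀ θ : ℝ) (θ' : Eu p)
    (m lam A : ℝ) (hρ : ρ₀ ≠ 0) (hθ : θ ≠ 0) (hc : c ≤ n) (hP : ∀ k, k ≤ n → P k ≠ 0) :
    (∑ j ∈ Finset.Ico c n, nu r (j + 1) *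
      ((A * (m - P n) - inner ℝ (lam • θ') (Rv (j + 1)) / P (j + 1)
          + A * (inner ℝ (Pv (j + 1)) (Rv (j + 1)) / P (j + 1) ^ 2))
        - (A * (m - P n) - inner ℝ (lam • θ') (Rv c) / P c
          + A * (inner ℝ (Pv c) (Rv c) / P c ^ 2))
        + (-(inner ℝ (lam • θ') (Rv c) / P (j + 1)
              - inner ℝ (lam • θ') (Rv (j + 1)) * P c / P (j + 1) ^ 2)
          + A * (inner ℝ (Rv c) (Pv (j + 1)) / P (j + 1) ^ 2
            + inner ℝ (Rv (j + 1)) (Pv c) / P (j + 1) ^ 2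
            - 2 * (inner ℝ (Rv (j + 1)) (Pv (j + 1)) * P c / P (j + 1) ^ 3)))))
      = -(ρ₀ * θ * ∑ i, (lam * ((θ⁻¹ • θ') i) *
            Tf n c r (fun k => P k / P n) (fun k => Rv k i / (ρ₀ * P n))
          + A / θ * Hf n c r (fun k => P k / P n) (fun k => Pv k i / P n)
              (fun k => Rv k i / (ρ₀ * P n)))) := by
  have hc' : P c ≠ 0 := hP c hc
  have key : ∀ i, -(ρ₀ * θ * (lam * ((θ⁻¹ • θ') i) *
            Tf n c r (fun k => P k / P n) (fun k => Rv k i / (ρ₀ * P n))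
          + A / θ * Hf n c r (fun k => P k / P n) (fun k => Pv k i / P n)
              (fun k => Rv k i / (ρ₀ * P n)))) =
      (∑ j ∈ Finset.Ico c n, nu r (j + 1) *
      ((A * (m - P n) - lam * θ' i * (Rv (j + 1) i / P (j + 1))
          + A * (Pv (j + 1) i / P (j + 1) * (Rv (j + 1) i / P (j + 1))))
        - (A * (m - P n) - lam * θ' i * (Rv c i / P c) + A * (Pv c i / P c * (Rv c i / P c)))
        + (-(lam * θ' i * (Rv c i / P (j + 1) - Rv (j + 1) i * P c / P (j + 1) ^ 2))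
          + A * (Rv c i * Pv (j + 1) i / P (j + 1) ^ 2 + Rv (j + 1) i * Pv c i / P (j + 1) ^ 2
            - 2 * (Rv (j + 1) i * P c * Pv (j + 1) i / P (j + 1) ^ 3))))) := by
    intro i
    have e : (θ⁻¹ • θ') i = θ' i / θ := by
      rw [PiLp.smul_apply, smul_eq_mul, div_eq_inv_mul]
    rw [e]
    exact (UL.H33.point_a n c r P (fun k => Pv k i) (fun k => Rv k i) ρ₀ θ (θ' i) m lam A hρ hθ
      hc hP).symm
  rw [Finset.mul_sum, ← Finset.sum_neg_distrib, Finset.sum_congr rfl (fun i _ => key i),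
    Finset.sum_comm]
  refine Finset.sum_congr rfl fun j hj => ?_
  have hj' : P (j + 1) ≠ 0 := hP (j + 1) (Finset.mem_Ico.mp hj).2
  rw [← Finset.mul_sum]
  congr 1
  have e0 : ∀ X a b a' b' c' : ℝ, (X - a + b) - (X - a' + b') + c' = (-a + b) - (-a' + b') + c' :=
    fun X a b a' b' c' => by ring
  simp only [e0]
  simp only [inner_eq, Finset.sum_div, Finset.mul_sum, Finset.sum_mul, PiLp.smul_apply,
    smul_eq_mul, ← Finset.sum_add_distrib, ← Finset.sum_sub_distrib, ← Finset.sum_neg_distrib]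
  refine Finset.sum_congr rfl fun i _ => ?_
  field_simp

/-! ### The mass -/

theorem mass_deriv (hDif : DifStatement) (hGrn : GrnStatement) {p : ℕ} {Ω : Set (Eu p)}
    {q m : Eu p → ℝ} {n : ℕ} {ρ : ℕ → ℝ} {u : ℕ → ℝ → Eu p → ℝ}
    {v : ℕ → ℝ → Eu p → Eu p} {w : ℕ → ℝ → Eu p → Eu p →L[ℝ] Eu p}
    (h : SolN Ω q m n ρ u v w) (t : ℝ) (ht : 0 < t) :
    HasDerivAt (fun t => ∫ x in Ω, Pk (fun i => u i t x) n)
      (∫ x in Ω, Pk (fun i => u i t x) n * (m x - Pk (fun i => u i t x) n)) t := by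
  have hΩ := h.dom
  have hn : ∀ i ∈ Finset.range (n + 1), i ≤ n := fun i hi => by
    have := Finset.mem_range.1 hi
    omega
  have snd : ∀ g : Eu p → ℝ, ContinuousOn g (closure Ω) →
      ContinuousOn (fun a : ℝ × Eu p => g a.2) (Ioi 0 ×ˢ closure Ω) := fun g hg =>
    hg.comp continuous_snd.continuousOn fun a ha => ha.2
  have cu : ∀ i, i ≤ n → ContinuousOn (fun a : ℝ × Eu p => u i a.1 a.2) (Ioi 0 ×ˢ closure Ω) :=
    fun i hi => (h.evo i hi).cz.mono (prod_mono Ioi_subset_Ici_self Subset.rfl)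
  let U : ℝ → Eu p → ℝ := fun s x => ∑ i ∈ Finset.range (n + 1), u i s x
  let ut : ℕ → ℝ → Eu p → ℝ := fun i s x => ρ i * tr (w i s x) + u i s x * (m x - U s x)
  let Pt : ℝ → Eu p → ℝ := fun s x => ∑ i ∈ Finset.range (n + 1), ut i s x
  have cU : ContinuousOn (fun a : ℝ × Eu p => U a.1 a.2) (Ioi 0 ×ˢ closure Ω) :=
    continuousOn_finsetSum _ fun i hi => cu i (hn i hi)
  have cPt : ContinuousOn (fun a : ℝ × Eu p => Pt a.1 a.2) (Ioi 0 ×ˢ closure Ω) :=
    continuousOn_finsetSum _ fun i hi =>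
      (continuousOn_const.mul (continuous_tr.comp_continuousOn (h.evo i (hn i hi)).cH)).add
        ((cu i (hn i hi)).mul ((snd m h.cm).sub cU))
  have hV := hDif p Ω q U Pt hΩ cU cPt (fun s hs x hx =>
    HasDerivAt.fun_sum fun i hi => (h.evo i (hn i hi)).dt s hs x (subset_closure hx)) t ht
  refine hV.congr_deriv ?_
  let Rv : Eu p → Eu p := fun x => ∑ i ∈ Finset.range (n + 1), ρ i • v i t x
  let Rw : Eu p → Eu p →L[ℝ] Eu p := fun x => ∑ i ∈ Finset.range (n + 1), ρ i • w i t x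
  have sU : ContinuousOn (U t) (closure Ω) :=
    continuousOn_finsetSum _ fun i hi => (h.evo i (hn i hi)).c0 ht.le
  have sRv : ContinuousOn Rv (closure Ω) :=
    continuousOn_finsetSum _ fun i hi => (((h.evo i (hn i hi)).C1 ht).c1).const_smul (ρ i)
  have sRw : ContinuousOn Rw (closure Ω) :=
    continuousOn_finsetSum _ fun i hi => (((h.evo i (hn i hi)).C2 ht).c2).const_smul (ρ i)
  have dR : ∀ x ∈ Ω, HasFDerivAt Rv (Rw x) x := fun x hx =>
    HasFDerivAt.fun_sum fun i hi => ((h.evo i (hn i hi)).dxx t ht x hx).const_smul (ρ i)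
  have nR : Neu Ω q Rv := Neu.sum _ fun i hi => Neu.smul (fun _ => ρ i) ((h.evo i (hn i hi)).neu t ht)
  have hJ := hGrn p Ω q Rv Rw hΩ sRv sRw dR nR
  have e1 : ∀ x, Pt t x = tr (Rw x) + U t x * (m x - U t x) := by
    intro x
    simp only [Pt, ut, Rw, U]
    rw [Finset.sum_add_distrib, Finset.sum_mul, tr_sum]
    simp only [tr_smul]
  simp only [e1]
  have c1 : ContinuousOn (fun x => tr (Rw x)) (closure Ω) :=
    continuous_tr.comp_continuousOn sRw
  have c2 : ContinuousOn (fun x => U t x * (m x - U t x)) (closure Ω) :=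
    sU.mul (h.cm.sub sU)
  rw [integral_add (hΩ.integrableOn c1) (hΩ.integrableOn c2), hJ, zero_add]
  rfl

/-- Splitting an integral. -/
theorem split_int {p : ℕ} {Ω : Set (Eu p)} {q : Eu p → ℝ} (hΩ : Dom Ω q) (s₁ s₂ : Finset ℕ)
    (f₀ : Eu p → ℝ) (f₁ f₂ : ℕ → Eu p → ℝ) (a : ℕ → ℝ) (h₀ : ContinuousOn f₀ (closure Ω))
    (h₁ : ∀ k ∈ s₁, ContinuousOn (f₁ k) (closure Ω))
    (h₂ : ∀ k ∈ s₂, ContinuousOn (f₂ k) (closure Ω)) :
    ∫ x in Ω, (f₀ x - (∑ k ∈ s₁, f₁ k x) + ∑ j ∈ s₂, a j * f₂ j x) =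
      (∫ x in Ω, f₀ x) - (∑ k ∈ s₁, ∫ x in Ω, f₁ k x)
        + ∑ j ∈ s₂, a j * ∫ x in Ω, f₂ j x := by
  have i₀ := hΩ.integrableOn h₀
  have i₁ : ∀ k ∈ s₁, IntegrableOn (f₁ k) Ω := fun k hk => hΩ.integrableOn (h₁ k hk)
  have c₂ : ∀ k ∈ s₂, ContinuousOn (fun x => a k * f₂ k x) (closure Ω) := fun k hk =>
    continuousOn_const.mul (h₂ k hk)
  have i₂ : ∀ k ∈ s₂, IntegrableOn (fun x => a k * f₂ k x) Ω := fun k hk =>
    hΩ.integrableOn (c₂ k hk)
  have I₁ : IntegrableOn (fun x => ∑ k ∈ s₁, f₁ k x) Ω :=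
    hΩ.integrableOn (continuousOn_finsetSum s₁ h₁)
  have I₂ : IntegrableOn (fun x => ∑ k ∈ s₂, a k * f₂ k x) Ω :=
    hΩ.integrableOn (continuousOn_finsetSum s₂ c₂)
  have I₀ : IntegrableOn (fun x => f₀ x - ∑ k ∈ s₁, f₁ k x) Ω := i₀.sub I₁
  rw [integral_add I₀ I₂, integral_sub i₀ I₁, integral_finsetSum _ i₁,
    integral_finsetSum _ i₂]
  congr 1
  exact Finset.sum_congr rfl fun j _ => integral_const_mul _ _

/-! ### The main computation -/

theorem comp_C1 {p : ℕ} {Ω : Set (Eu p)} {f : Eu p → ℝ} {f' : Eu p → Eu p} (hf : C1 Ω f f')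
    {g : ℝ → ℝ} {g' : Eu p → ℝ} (hg : ∀ x ∈ closure Ω, HasDerivAt g (g' x) (f x))
    (cg : ContinuousOn g' (closure Ω)) :
    C1 Ω (fun x => g (f x)) (fun x => g' x • f' x) := by
  refine ⟨?_, cg.smul hf.c1, fun x hx => HasGradientAt.comp' (hg x (subset_closure hx))
    (hf.d1 x hx)⟩
  intro x hx
  exact (hg x hx).continuousAt.comp_continuousWithinAt (hf.c0 x hx)

theorem dvf_of (hDif : DifStatement) (hGrn : GrnStatement) (hl : LgpNStatement)
    (hr : RtpNStatement) (hs : SteNStatement) (hw : WtsStatement) : DvfNStatement := by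
  intro p Ω q m a₀ b θ θ' θ'' n c ρ u v w hsol hord hrts hst ha hb hθ t ht
  have hΩ := hsol.dom
  have hW := hw n c (rr n ρ) a₀ b hrts ha hb
  have hρ0 : 0 < ρ 0 := hord.pos
  have cn : c ≤ n := hrts.cn
  have mem : ∀ {k i : ℕ}, k ≤ n → i ∈ Finset.range (k + 1) → i ≤ n := fun hk hi =>
    (Nat.lt_succ_iff.mp (Finset.mem_range.mp hi)).trans hk
  have hj1 : ∀ {j : ℕ}, j ∈ Finset.Ico c n → j + 1 ≤ n := fun hj => (Finset.mem_Ico.mp hj).2
  have hk1 : ∀ {k : ℕ}, k ∈ Finset.range (n + 1) → k ≤ n := fun hk =>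
    Nat.lt_succ_iff.mp (Finset.mem_range.mp hk)
  have θpos := hst.pos
  have hb0 : 0 < b := by
    obtain ⟨x, hx⟩ := hΩ.closure_nonempty
    have h0 := hθ x hx
    linarith [h0.1, h0.2]
  have hC := hst.c2.toC1
  have cθ : ContinuousOn θ (closure Ω) := hC.c0
  have cθ' : ContinuousOn θ' (closure Ω) := hC.c1
  -- the weights
  have clam : ContinuousOn (fun x => lamf b (θ x)) (closure Ω) := by
    unfold lamf
    refine continuousOn_const.add (ContinuousOn.log (continuousOn_const.div cθ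
      fun x hx => (θpos x hx).ne') fun x hx => (div_pos hb0 (θpos x hx)).ne')
  have ceta : ∀ k, ContinuousOn (fun x => etaf c (rr n ρ) (lamf b (θ x)) k) (closure Ω) := by
    intro k
    unfold etaf
    by_cases hk : k = 0
    · simp only [hk, if_true]
      exact continuousOn_const
    · simp only [hk, if_false]
      refine ContinuousOn.div_const (continuousOn_const.sub ?_) _
      unfold Qk
      exact continuousOn_const.mul (Real.continuous_exp.comp_continuousOn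
        ((clam.mul continuousOn_const).neg))
  let β : ℕ → Eu p → ℝ := fun k x => bet c (rr n ρ) b k (θ x)
  let γ : ℕ → Eu p → ℝ := fun k x => etaf c (rr n ρ) (lamf b (θ x)) k * rr n ρ k -
    etaf c (rr n ρ) (lamf b (θ x)) (k + 1) * rr n ρ (k + 1)
  let β' : ℕ → Eu p → Eu p := fun k x => γ k x • θ' x
  let A : Eu p → ℝ := fun x => Af a₀ b (θ x)
  let A' : Eu p → Eu p := fun x => lamf b (θ x) • θ' x
  have cγ : ∀ k, ContinuousOn (γ k) (closure Ω) := fun k =>
    (((ceta k).mul continuousOn_const).sub ((ceta (k + 1)).mul continuousOn_const))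
  have dβ : ∀ k, k ≤ n → C1 Ω (β k) (β' k) := fun k hk =>
    comp_C1 hC (fun x hx => (hW (θ x) (hθ x hx).1 (hθ x hx).2).2.2.2.2.2 k hk) (cγ k)
  have dA : C1 Ω A A' :=
    comp_C1 hC (fun x hx => (hW (θ x) (hθ x hx).1 (hθ x hx).2).2.2.1) clam
  have cβ : ∀ k, k ≤ n → ContinuousOn (β k) (closure Ω) := fun k hk => (dβ k hk).c0
  have cA : ContinuousOn A (closure Ω) := dA.c0
  have cA' : ContinuousOn A' (closure Ω) := dA.c1
  have cβ' : ∀ k, k ≤ n → ContinuousOn (β' k) (closure Ω) := fun k hk => (dβ k hk).c1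
  -- the fields
  let P : ℝ → ℕ → Eu p → ℝ := fun s k x => Pk (fun i => u i s x) k
  let Pv : ℕ → Eu p → Eu p := fun k x => Pg (fun i => v i t x) k
  let Rv : ℕ → Eu p → Eu p := fun k x => Rg ρ (fun i => v i t x) k
  have ppos : ∀ s, 0 < s → ∀ k, k ≤ n → ∀ x ∈ closure Ω, 0 < P s k x := by
    intro s hs' k hk x hx
    exact Finset.sum_pos (fun i hi => hsol.pos i (mem hk hi) s hs' x hx)
      ⟨0, Finset.mem_range.mpr (Nat.succ_pos k)⟩
  have pne : ∀ s, 0 < s → ∀ k, k ≤ n → ∀ x ∈ closure Ω, P s k x ≠ 0 :=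
    fun s hs' k hk x hx => (ppos s hs' k hk x hx).ne'
  have cP : ∀ s, 0 < s → ∀ k, k ≤ n → ContinuousOn (P s k) (closure Ω) := by
    intro s hs' k hk
    exact continuousOn_finsetSum _ fun i hi => (hsol.evo i (mem hk hi)).c0 hs'.le
  have cPv : ∀ k, k ≤ n → ContinuousOn (Pv k) (closure Ω) := by
    intro k hk
    exact continuousOn_finsetSum _ fun i hi => ((hsol.evo i (mem hk hi)).C1 ht).c1
  have cRv : ∀ k, k ≤ n → ContinuousOn (Rv k) (closure Ω) := by
    intro k hk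
    exact continuousOn_finsetSum _ fun i hi =>
      (((hsol.evo i (mem hk hi)).C1 ht).c1).const_smul (ρ i)
  have clog : ∀ s, 0 < s → ∀ k, k ≤ n → ContinuousOn (fun x => Real.log (P s k x)) (closure Ω) :=
    fun s hs' k hk => (cP s hs' k hk).log (pne s hs' k hk)
  -- splitting the functional
  have split : ∀ s, 0 < s → FuT Ω n c ρ a₀ b θ (fun i => u i s) =
      (∫ x in Ω, P s n x)
      - (∑ k ∈ Finset.range (n + 1), ∫ x in Ω, β k x * Real.log (P s k x))
      + ∑ j ∈ Finset.Ico c n, nu (rr n ρ) (j + 1) *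
        ((∫ x in Ω, A x * Real.log (P s (j + 1) x))
          - (∫ x in Ω, A x * Real.log (P s c x))
          + (∫ x in Ω, A x * (P s c x / P s (j + 1) x)) - ∫ x in Ω, A x) := by
    intro s hs'
    have c2 : ∀ k ∈ Finset.range (n + 1), ContinuousOn
        (fun x => β k x * Real.log (P s k x)) (closure Ω) := fun k hk =>
      (cβ k (hk1 hk)).mul (clog s hs' k (hk1 hk))
    have c3 : ∀ j ∈ Finset.Ico c n, ContinuousOn
        (fun x => A x * (Real.log (P s (j + 1) x)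
          - Real.log (P s c x) - 1 + P s c x / P s (j + 1) x)) (closure Ω) := fun j hj =>
      cA.mul (((((clog s hs' (j + 1) (hj1 hj)).sub
        (clog s hs' c cn)).sub continuousOn_const).add
        ((cP s hs' c cn).div (cP s hs' (j + 1) (hj1 hj)) (pne s hs' (j + 1) (hj1 hj)))))
    have key := split_int hΩ (Finset.range (n + 1)) (Finset.Ico c n) (P s n)
      (fun k x => β k x * Real.log (P s k x))
      (fun j x => A x * (Real.log (P s (j + 1) x)
          - Real.log (P s c x) - 1 + P s c x / P s (j + 1) x))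
      (fun j => nu (rr n ρ) (j + 1)) (cP s hs' n le_rfl) c2 c3
    have e1 : FuT Ω n c ρ a₀ b θ (fun i => u i s) = ∫ x in Ω, (P s n x
        - (∑ k ∈ Finset.range (n + 1), β k x * Real.log (P s k x))
        + ∑ j ∈ Finset.Ico c n, nu (rr n ρ) (j + 1) * (A x * (Real.log (P s (j + 1) x)
          - Real.log (P s c x) - 1 + P s c x / P s (j + 1) x))) := by
      unfold FuT FuN
      refine setIntegral_congr_fun hΩ.measurableSet fun x _ => ?_
      show _ + _ = _ + _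
      congr 1
      refine Finset.sum_congr rfl fun j _ => ?_
      show A x * (nu (rr n ρ) (j + 1) * _) = _
      ring
    rw [e1, key]
    congr 1
    refine Finset.sum_congr rfl fun j hj => ?_
    have j1 : IntegrableOn (fun x => A x * Real.log (P s (j + 1) x)) Ω :=
      hΩ.integrableOn (cA.mul (clog s hs' (j + 1) (hj1 hj)))
    have j2 : IntegrableOn (fun x => A x * Real.log (P s c x)) Ω :=
      hΩ.integrableOn (cA.mul (clog s hs' c cn))
    have j3 : IntegrableOn (fun x => A x * (P s c x / P s (j + 1) x)) Ω :=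
      hΩ.integrableOn (cA.mul ((cP s hs' c cn).div
        (cP s hs' (j + 1) (hj1 hj)) (pne s hs' (j + 1) (hj1 hj))))
    have j4 : IntegrableOn A Ω := hΩ.integrableOn cA
    have j12 : IntegrableOn (fun x => A x * Real.log (P s (j + 1) x)
      - A x * Real.log (P s c x)) Ω := j1.sub j2
    have j123 : IntegrableOn (fun x => A x * Real.log (P s (j + 1) x)
      - A x * Real.log (P s c x) + A x * (P s c x / P s (j + 1) x)) Ω := j12.add j3
    rw [← integral_sub j1 j2, ← integral_add j12 j3, ← integral_sub j123 j4]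
    congr 1
    refine setIntegral_congr_fun hΩ.measurableSet fun x _ => ?_
    show A x * _ = _
    ring
  -- the derivative, term by term
  let D1 : ℕ → Eu p → ℝ := fun k x => β k x * (m x - P t n x)
    - inner ℝ (β' k x) (Rv k x) / P t k x
    + β k x * (inner ℝ (Pv k x) (Rv k x) / P t k x ^ 2)
  let D2 : ℕ → Eu p → ℝ := fun k x => A x * (m x - P t n x)
    - inner ℝ (A' x) (Rv k x) / P t k x
    + A x * (inner ℝ (Pv k x) (Rv k x) / P t k x ^ 2)
  let D3 : ℕ → Eu p → ℝ := fun k x => -(inner ℝ (A' x) (Rv c x) / P t k x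
      - inner ℝ (A' x) (Rv k x) * P t c x / P t k x ^ 2)
    + A x * (inner ℝ (Rv c x) (Pv k x) / P t k x ^ 2 + inner ℝ (Rv k x) (Pv c x) / P t k x ^ 2
      - 2 * (inner ℝ (Rv k x) (Pv k x) * P t c x / P t k x ^ 3))
  have h0 := mass_deriv hDif hGrn hsol t ht
  have h1 : ∀ k ∈ Finset.range (n + 1), HasDerivAt
      (fun s => ∫ x in Ω, β k x * Real.log (P s k x)) (∫ x in Ω, D1 k x) t :=
    fun k hk => hl p Ω q m n ρ u v w (β k) (β' k) k hsol (hk1 hk) (dβ k (hk1 hk)) t ht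
  have h2 : ∀ k, k ≤ n → HasDerivAt
      (fun s => ∫ x in Ω, A x * Real.log (P s k x)) (∫ x in Ω, D2 k x) t :=
    fun k hk => hl p Ω q m n ρ u v w A A' k hsol hk dA t ht
  have h3 : ∀ k, k ≤ n → HasDerivAt
      (fun s => ∫ x in Ω, A x * (P s c x / P s k x)) (∫ x in Ω, D3 k x) t :=
    fun k hk => hr p Ω q m n ρ u v w A A' c k hsol cn hk dA t ht
  have h4 := (h0.sub (HasDerivAt.fun_sum h1)).add (HasDerivAt.fun_sum fun j hj =>
    (((((h2 (j + 1) (hj1 hj)).sub (h2 c cn)).add (h3 (j + 1) (hj1 hj))).sub_const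
      (∫ x in Ω, A x)).const_mul (nu (rr n ρ) (j + 1))))
  have h5 := h4.congr_of_eventuallyEq (f₁ := fun s => FuT Ω n c ρ a₀ b θ (fun i => u i s))
    (by
      filter_upwards [Ioi_mem_nhds ht] with s hs'
      exact split s hs')
  refine h5.congr_deriv ?_
  -- the value
  have cPi : ∀ k, k ≤ n → ContinuousOn (fun x => inner ℝ (Pv k x) (Rv k x) / P t k x ^ 2)
      (closure Ω) := fun k hk =>
    ((cPv k hk).inner (cRv k hk)).div ((cP t ht k hk).pow 2)
      fun x hx => pow_ne_zero 2 (pne t ht k hk x hx)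
  have cD1 : ∀ k ∈ Finset.range (n + 1), ContinuousOn (D1 k) (closure Ω) := fun k hk =>
    (((cβ k (hk1 hk)).mul (hsol.cm.sub (cP t ht n le_rfl))).sub
      (((cβ' k (hk1 hk)).inner (cRv k (hk1 hk))).div (cP t ht k (hk1 hk))
        (pne t ht k (hk1 hk)))).add ((cβ k (hk1 hk)).mul (cPi k (hk1 hk)))
  have cD2 : ∀ k, k ≤ n → ContinuousOn (D2 k) (closure Ω) := fun k hk =>
    ((cA.mul (hsol.cm.sub (cP t ht n le_rfl))).sub
      ((cA'.inner (cRv k hk)).div (cP t ht k hk) (pne t ht k hk))).add (cA.mul (cPi k hk))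
  have cD3 : ∀ k, k ≤ n → ContinuousOn (D3 k) (closure Ω) := fun k hk => by
    have a1 := cP t ht k hk
    have a2 := cP t ht c cn
    have a3 := cPv k hk
    have a4 := cPv c cn
    have a5 := cRv k hk
    have a6 := cRv c cn
    have a7 : ∀ x ∈ closure Ω, P t k x ^ 2 ≠ 0 := fun x hx => pow_ne_zero 2 (pne t ht k hk x hx)
    have a8 : ∀ x ∈ closure Ω, P t k x ^ 3 ≠ 0 := fun x hx => pow_ne_zero 3 (pne t ht k hk x hx)
    exact ((((cA'.inner a6).div a1 (pne t ht k hk)).sub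
      (((cA'.inner a5).mul a2).div (a1.pow 2) a7)).neg).add
      (cA.mul ((((a6.inner a3).div (a1.pow 2) a7).add ((a5.inner a4).div (a1.pow 2) a7)).sub
        (continuousOn_const.mul (((a5.inner a3).mul a2).div (a1.pow 3) a8))))
  have cD : ∀ j ∈ Finset.Ico c n, ContinuousOn
      (fun x => D2 (j + 1) x - D2 c x + D3 (j + 1) x) (closure Ω) := fun j hj =>
    ((cD2 (j + 1) (hj1 hj)).sub (cD2 c cn)).add (cD3 (j + 1) (hj1 hj))
  have cM : ContinuousOn (fun x => P t n x * (m x - P t n x)) (closure Ω) :=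
    (cP t ht n le_rfl).mul (hsol.cm.sub (cP t ht n le_rfl))
  have key := split_int hΩ (Finset.range (n + 1)) (Finset.Ico c n)
    (fun x => P t n x * (m x - P t n x)) D1 (fun j x => D2 (j + 1) x - D2 c x + D3 (j + 1) x)
    (fun j => nu (rr n ρ) (j + 1)) cM cD1 cD
  have e2 : (∑ j ∈ Finset.Ico c n, nu (rr n ρ) (j + 1) *
      ∫ x in Ω, (D2 (j + 1) x - D2 c x + D3 (j + 1) x)) =
      ∑ j ∈ Finset.Ico c n, nu (rr n ρ) (j + 1) *
        ((∫ x in Ω, D2 (j + 1) x) - (∫ x in Ω, D2 c x)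
          + ∫ x in Ω, D3 (j + 1) x) := by
    refine Finset.sum_congr rfl fun j hj => ?_
    have j1 := hΩ.integrableOn (cD2 (j + 1) (hj1 hj))
    have j2 := hΩ.integrableOn (cD2 c cn)
    have j3 := hΩ.integrableOn (cD3 (j + 1) (hj1 hj))
    have j12 : IntegrableOn (fun x => D2 (j + 1) x - D2 c x) Ω := j1.sub j2
    rw [← integral_sub j1 j2, ← integral_add j12 j3]
  rw [e2] at key
  refine key.symm.trans ?_
  -- the equation of the steady state
  have dPn : C1 Ω (P t n) (Pv n) := C1.sum _ fun i hi => (hsol.evo i (mem le_rfl hi)).C1 ht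
  have hste := hs p Ω q m (ρ 0) θ θ' θ'' (P t n) (Pv n) hΩ hρ0 hsol.cm hst dPn
  let T : Eu p → ℝ := fun x => (-(P t n x - θ x) ^ 2
        + ρ 0 * ((P t n x - θ x) * inner ℝ ((θ x)⁻¹ • θ' x)
            ((P t n x)⁻¹ • Pv n x - (θ x)⁻¹ • θ' x))
        - ρ 0 * θ x * QfN n c (lamf b (θ x)) (Af a₀ b (θ x) / θ x) (rr n ρ)
            (etaf c (rr n ρ) (lamf b (θ x))) ρ (fun i => u i t x) (fun i => v i t x)
            ((θ x)⁻¹ • θ' x))
  let G : Eu p → ℝ := fun x => P t n x * (m x - P t n x)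
    - (∑ k ∈ Finset.range (n + 1), D1 k x)
    + ∑ j ∈ Finset.Ico c n, nu (rr n ρ) (j + 1) * (D2 (j + 1) x - D2 c x + D3 (j + 1) x)
  let E₁ : Eu p → ℝ := fun x => (P t n x - θ x) * (m x - θ x)
  let E₂ : Eu p → ℝ := fun x => inner ℝ ((θ x)⁻¹ • θ' x) (Pv n x - P t n x • (θ x)⁻¹ • θ' x)
  have cG : ContinuousOn G (closure Ω) := by
    refine (cM.sub (continuousOn_finsetSum _ cD1)).add (continuousOn_finsetSum _ fun j hj => ?_)
    exact continuousOn_const.mul (cD j hj)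
  have cE₁ : ContinuousOn E₁ (closure Ω) := ((cP t ht n le_rfl).sub cθ).mul (hsol.cm.sub cθ)
  have cz : ContinuousOn (fun x => (θ x)⁻¹ • θ' x) (closure Ω) :=
    (cθ.inv₀ fun x hx => (θpos x hx).ne').smul cθ'
  have cE₂ : ContinuousOn E₂ (closure Ω) :=
    cz.inner ((cPv n le_rfl).sub ((cP t ht n le_rfl).smul cz))
  have pt : ∀ x ∈ closure Ω, T x = G x - E₁ x + ρ 0 * E₂ x := by
    intro x hx
    have hθx : θ x ≠ 0 := (θpos x hx).ne'
    have hPx : ∀ k, k ≤ n → P t k x ≠ 0 := fun k hk => pne t ht k hk x hx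
    have w1 := vec_log n (rr n ρ) (etaf c (rr n ρ) (lamf b (θ x))) (fun k => P t k x)
      (fun k => Pv k x) (fun k => Rv k x) (ρ 0) (θ x) (θ' x) hρ0.ne' hθx hPx
    have w2 := vec_a n c (rr n ρ) (fun k => P t k x) (fun k => Pv k x) (fun k => Rv k x)
      (ρ 0) (θ x) (θ' x) (m x) (lamf b (θ x)) (A x) hρ0.ne' hθx cn hPx
    have w3 : (∑ k ∈ Finset.range (n + 1), D1 k x) = θ x * (m x - P t n x)
        - (∑ k ∈ Finset.range (n + 1), inner ℝ (β' k x) (Rv k x) / P t k x)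
        + ∑ k ∈ Finset.range (n + 1), β k x * (inner ℝ (Pv k x) (Rv k x) / P t k x ^ 2) := by
      have hsum : (∑ k ∈ Finset.range (n + 1), β k x) = θ x :=
        (hW (θ x) (hθ x hx).1 (hθ x hx).2).2.2.2.2.1
      rw [← hsum, Finset.sum_mul, ← Finset.sum_sub_distrib, ← Finset.sum_add_distrib]
    have w4 : (∑ j ∈ Finset.Ico c n, nu (rr n ρ) (j + 1) *
        (D2 (j + 1) x - D2 c x + D3 (j + 1) x)) =
        -(ρ 0 * θ x * ∑ i, (lamf b (θ x) * (((θ x)⁻¹ • θ' x) i) * Tf n c (rr n ρ)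
            (fun k => P t k x / P t n x) (fun k => Rv k x i / (ρ 0 * P t n x))
          + A x / θ x * Hf n c (rr n ρ) (fun k => P t k x / P t n x)
              (fun k => Pv k x i / P t n x) (fun k => Rv k x i / (ρ 0 * P t n x)))) := w2
    have w6 : (∑ k ∈ Finset.range (n + 1), β k x * (inner ℝ (Pv k x) (Rv k x) / P t k x ^ 2))
        - (∑ k ∈ Finset.range (n + 1), inner ℝ (β' k x) (Rv k x) / P t k x)
        - ρ 0 * θ x * inner ℝ ((θ x)⁻¹ • θ' x) ((P t n x)⁻¹ • Pv n x - (θ x)⁻¹ • θ' x)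
        = ρ 0 * θ x * ∑ i, Qlog n (rr n ρ) (etaf c (rr n ρ) (lamf b (θ x)))
            (fun k => P t k x / P t n x) (fun k => Pv k x i / P t n x)
            (fun k => Rv k x i / (ρ 0 * P t n x)) (((θ x)⁻¹ • θ' x) i) := w1
    have w5 : QfN n c (lamf b (θ x)) (Af a₀ b (θ x) / θ x) (rr n ρ)
            (etaf c (rr n ρ) (lamf b (θ x))) ρ (fun i => u i t x) (fun i => v i t x)
            ((θ x)⁻¹ • θ' x) =
        (∑ i, Qlog n (rr n ρ) (etaf c (rr n ρ) (lamf b (θ x)))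
            (fun k => P t k x / P t n x) (fun k => Pv k x i / P t n x)
            (fun k => Rv k x i / (ρ 0 * P t n x)) (((θ x)⁻¹ • θ' x) i)) +
        ∑ i, (lamf b (θ x) * (((θ x)⁻¹ • θ' x) i) * Tf n c (rr n ρ)
            (fun k => P t k x / P t n x) (fun k => Rv k x i / (ρ 0 * P t n x))
          + A x / θ x * Hf n c (rr n ρ) (fun k => P t k x / P t n x)
              (fun k => Pv k x i / P t n x) (fun k => Rv k x i / (ρ 0 * P t n x))) := by
      unfold QfN
      rw [← Finset.sum_add_distrib]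
      refine Finset.sum_congr rfl fun i _ => ?_
      have z1 : (fun k => Pv k x i / P t n x) = Zk n (fun j => u j t x) (fun k => v k t x i) := by
        funext k
        simp [Pv, Pg, Zk, P, Pk]
      have z2 : (fun k => Rv k x i / (ρ 0 * P t n x)) =
          ZZk n ρ (fun j => u j t x) (fun k => v k t x i) := by
        funext k
        simp [Rv, Rg, ZZk, P]
      rw [z1, z2, ← add_assoc]
      rfl
    have w7 : G x = P t n x * (m x - P t n x) - (∑ k ∈ Finset.range (n + 1), D1 k x)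
      + ∑ j ∈ Finset.Ico c n, nu (rr n ρ) (j + 1) * (D2 (j + 1) x - D2 c x + D3 (j + 1) x) := rfl
    have w8 : E₂ x = P t n x * inner ℝ ((θ x)⁻¹ • θ' x)
        ((P t n x)⁻¹ • Pv n x - (θ x)⁻¹ • θ' x) := by
      have hn := hPx n le_rfl
      show inner ℝ ((θ x)⁻¹ • θ' x) (Pv n x - P t n x • (θ x)⁻¹ • θ' x) = _
      rw [← real_inner_smul_right, smul_sub, smul_inv_smul₀ hn]
    rw [w7, w3, w4, w8]
    show -(P t n x - θ x) ^ 2
        + ρ 0 * ((P t n x - θ x) * inner ℝ ((θ x)⁻¹ • θ' x)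
            ((P t n x)⁻¹ • Pv n x - (θ x)⁻¹ • θ' x))
        - ρ 0 * θ x * QfN n c (lamf b (θ x)) (Af a₀ b (θ x) / θ x) (rr n ρ)
            (etaf c (rr n ρ) (lamf b (θ x))) ρ (fun i => u i t x) (fun i => v i t x)
            ((θ x)⁻¹ • θ' x) = _ - (P t n x - θ x) * (m x - θ x) + _
    rw [w5]
    linear_combination w6
  have i3 : ∫ x in Ω, T x = ∫ x in Ω, (G x - E₁ x + ρ 0 * E₂ x) :=
    setIntegral_congr_fun hΩ.measurableSet fun x hx => pt x (subset_closure hx)
  have iG := hΩ.integrableOn cG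
  have iE₁ := hΩ.integrableOn cE₁
  have iGE : IntegrableOn (fun x => G x - E₁ x) Ω := iG.sub iE₁
  have i4 : IntegrableOn (fun x => ρ 0 * E₂ x) Ω :=
    hΩ.integrableOn (continuousOn_const.mul cE₂)
  show (∫ x in Ω, G x) = ∫ x in Ω, T x
  rw [i3, integral_add iGE i4, integral_sub iG iE₁, integral_const_mul]
  have : (∫ x in Ω, E₁ x) = ρ 0 * ∫ x in Ω, E₂ x := hste
  rw [this]
  ring

/-- DVF. -/
theorem dvf_st (hDif : DifStatement) (hGrn : GrnStatement) (hLgp : LgpNStatement)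
    (hRtp : RtpNStatement) (hSte : SteNStatement) : DvfNStatement :=
  dvf_of hDif hGrn hLgp hRtp hSte (UL.H56.wts UL.H32.eta)

end Pool.Agent.Lib.MP_4fbe7c_an.ND.H31
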