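import Pool.Agent.Lib.MP_4fbe7c_an.ND.Base

/-! Project ND, module IBP (helper31): integration by parts. -/

set_option autoImplicit false

open Set MeasureTheory

namespace Pool.Agent.Lib.MP_4fbe7c_an.ND.H31

open Pool.Agent.Lib.MP_4fbe7c_an.ND

/-- IBP. -/
theorem ibp_st (hGrn : GrnStatement) : IbpStatement := by
  intro p Ω q f f' F D hΩ hf cF cD dF hN
  let G : Eu p → Eu p := fun x => f x • F x
  let D' : Eu p → Eu p →L[ℝ] Eu p := fun x => f x • D x + (innerSL ℝ (f' x)).smulRight (F x)
  have cG : ContinuousOn G (closure Ω) := hf.c0.smul cF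
  have cS : ContinuousOn (fun x => (innerSL ℝ (f' x)).smulRight (F x)) (closure Ω) := by
    have h1 : ContinuousOn (fun x => innerSL ℝ (f' x)) (closure Ω) :=
      (innerSL ℝ).continuous.comp_continuousOn hf.c1
    have h2 : ContinuousOn (fun x => ContinuousLinearMap.smulRightL ℝ (Eu p) (Eu p)
        (innerSL ℝ (f' x))) (closure Ω) :=
      (ContinuousLinearMap.smulRightL ℝ (Eu p) (Eu p)).continuous.comp_continuousOn h1
    exact h2.clm_apply cF
  have cD' : ContinuousOn D' (closure Ω) := (hf.c0.smul cD).add cS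
  have dG : ∀ x ∈ Ω, HasFDerivAt G (D' x) x := by
    intro x hx
    have h1 : HasFDerivAt f (innerSL ℝ (f' x)) x := hasGradientAt_iff_fderiv.mp (hf.d1 x hx)
    exact h1.fun_smul (dF x hx)
  have hN' : Neu Ω q G := Neu.smul f hN
  have key := hGrn p Ω q G D' hΩ cG cD' dG hN'
  have e : ∀ x, tr (D' x) = f x * tr (D x) + inner ℝ (f' x) (F x) := by
    intro x
    show tr (f x • D x + (innerSL ℝ (f' x)).smulRight (F x)) = _
    rw [tr_add, tr_smul, tr_smulRight]
  simp only [e] at key
  have c1 : ContinuousOn (fun x => f x * tr (D x)) (closure Ω) :=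
    hf.c0.mul (continuous_tr.comp_continuousOn cD)
  have c2 : ContinuousOn (fun x => inner ℝ (f' x) (F x)) (closure Ω) := hf.c1.inner cF
  rw [integral_add (hΩ.integrableOn c1) (hΩ.integrableOn c2)] at key
  linarith

end Pool.Agent.Lib.MP_4fbe7c_an.ND.H31
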