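import Pool.Agent.Lib.MP_4fbe7c_an.ND.H31.Low

/-!
Project ND, module LOB (helper31): if the functional is close to its minimum, then the state is
close to the steady state.
-/

set_option autoImplicit false

open Set MeasureTheory

namespace Pool.Agent.Lib.MP_4fbe7c_an.ND.H31

open Pool.Agent.Lib.MP_4fbe7c_an.UL Pool.Agent.Lib.MP_4fbe7c_an.ND

/-- `s - 1 - log s ≥ (s - 1)² / (2 max (1, s))`, in the form used. -/
theorem log_quad {s : ℝ} (hs : 0 < s) (B : ℝ) (h1 : 1 ≤ B) (h2 : s ≤ B) :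
    (s - 1) ^ 2 / (2 * B) ≤ s - 1 - Real.log s := by
  rcases le_total s 1 with h | h
  · have h3 : (s - 1) ^ 2 / (2 * B) ≤ (s - 1) ^ 2 / 2 :=
      div_le_div_of_nonneg_left (sq_nonneg _) (by norm_num) (by linarith)
    have h4 : |1 - s| < 1 := by
      rw [abs_of_nonneg (by linarith)]
      linarith
    have h5 := Real.hasSum_pow_div_log_of_abs_lt_one h4
    have h6 := sum_le_hasSum (Finset.range 2) (fun i _ => by
      have : (0 : ℝ) ≤ 1 - s := by linarith
      positivity) h5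
    simp only [Finset.sum_range_succ, Finset.sum_range_zero] at h6
    norm_num at h6
    nlinarith
  · have h3 : (s - 1) ^ 2 / (2 * B) ≤ (s - 1) ^ 2 / (2 * s) :=
      div_le_div_of_nonneg_left (sq_nonneg _) (by linarith) (by linarith)
    have h4 := Real.self_le_sinh_iff.mpr (Real.log_nonneg h)
    rw [Real.sinh_log hs] at h4
    have h5 : (s - 1) ^ 2 / (2 * s) = s - 1 - (s - s⁻¹) / 2 := by
      field_simp
      ring
    linarith

/-- `β_0 ≥ θ / 4`. -/
theorem bet_zero {n c : ℕ} {r : ℕ → ℝ} {a₀ b θ : ℝ} (hr : Rts n c r) (ha : 0 < a₀)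
    (hb : b ≤ 1001 / 1000 * a₀) (h1 : a₀ ≤ θ) (h2 : θ ≤ b) : θ / 4 ≤ bet c r b 0 θ := by
  obtain ⟨⟨hl1, hl2⟩, -⟩ := wts_st n c r a₀ b hr ha hb θ h1 h2
  have hP := eta_st n c r (lamf b θ) hr hl1 hl2
  have hθ : 0 < θ := lt_of_lt_of_le ha h1
  have e0 : Lm r (etaf c r (lamf b θ)) 0 = 1 := by
    unfold Lm
    rw [hP.eta0, hr.r0]
    norm_num
  have e1 : Lm r (etaf c r (lamf b θ)) (0 + 1) ≤ 3 / 4 := by
    rcases Nat.eq_zero_or_pos n with h | h
    · have h3 := hr.rlast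
      rw [h] at h3
      unfold Lm
      rw [h3]
      norm_num
    · have h3 := (hP.etab 1 le_rfl h)
      have h4 := hr.rpos 1 h
      have h5 := hr.r1
      unfold Lm
      rw [zero_add, div_le_iff₀ (by linarith)]
      nlinarith [h3.1, h3.2]
  unfold bet
  rw [e0]
  nlinarith

/-- The lower bound of the first part. -/
theorem pt_quad {θ U a₀ b B : ℝ} (ha : 0 < a₀) (h1 : a₀ ≤ θ) (h2 : θ ≤ b) (hbB : b ≤ B)
    (hU : 0 < U) (hUB : U ≤ B) :
    a₀ / (2 * b * B) * (U - θ) ^ 2 ≤ (U - θ * Real.log U) - (θ - θ * Real.log θ) := by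
  have hθ : 0 < θ := lt_of_lt_of_le ha h1
  have hb : 0 < b := lt_of_lt_of_le hθ h2
  have hB : 0 < B := lt_of_lt_of_le hb hbB
  have hB' : 1 ≤ B / a₀ := by
    rw [le_div_iff₀ ha]
    linarith
  have hs : U / θ ≤ B / a₀ := div_le_div₀ hB.le hUB ha h1
  have h3 := log_quad (div_pos hU hθ) (B / a₀) hB' hs
  rw [Real.log_div hU.ne' hθ.ne'] at h3
  have h4 := mul_le_mul_of_nonneg_left h3 hθ.le
  have e1 : θ * ((U / θ - 1) ^ 2 / (2 * (B / a₀))) = a₀ / (2 * θ * B) * (U - θ) ^ 2 := by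
    field_simp
  have e2 : θ * (U / θ - 1 - (Real.log U - Real.log θ)) =
      (U - θ * Real.log U) - (θ - θ * Real.log θ) := by
    field_simp
    ring
  rw [e1, e2] at h4
  refine le_trans (mul_le_mul_of_nonneg_right ?_ (sq_nonneg _)) h4
  exact div_le_div_of_nonneg_left ha.le (by positivity) (by gcongr)

/-- The lower bound of the second part. -/
theorem pt_lin {θ U u a₀ B β : ℝ} (ha : 0 < a₀) (h1 : a₀ ≤ θ) (hβ : θ / 4 ≤ β) (hu : 0 < u)
    (huU : u ≤ U) (hUB : U ≤ B) :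
    a₀ / (4 * B) * (U - u) ≤ β * (Real.log U - Real.log u) := by
  have hU : 0 < U := lt_of_lt_of_le hu huU
  have hB : 0 < B := lt_of_lt_of_le hU hUB
  have h2 : Real.log (u / U) ≤ u / U - 1 := Real.log_le_sub_one_of_pos (div_pos hu hU)
  rw [Real.log_div hu.ne' hU.ne'] at h2
  have h3 : (U - u) / B ≤ Real.log U - Real.log u := by
    have h4 : (U - u) / B ≤ (U - u) / U := div_le_div_of_nonneg_left (by linarith) hU hUB
    have h5 : (U - u) / U = 1 - u / U := by field_simp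
    linarith
  have h6 : 0 ≤ (U - u) / B := div_nonneg (by linarith) hB.le
  have h7 : a₀ / (4 * B) * (U - u) = a₀ / 4 * ((U - u) / B) := by
    field_simp
  rw [h7]
  exact mul_le_mul (by linarith) h3 h6 (by linarith)

/-- LOB. -/
theorem lob_st (hSup : SupStatement) (hThl : ThlStatement) : LobStatement := by
  intro p Ω q m a₀ b θ θ' θ'' n c ρ M K ε hΩ _ hr hθ ha hb hab hε
  obtain ⟨Kθ, -, hLθ⟩ := hThl p Ω q θ θ' θ'' hΩ hθ.c2 hθ.neu
  obtain ⟨x₀, hx₀⟩ := hΩ.closure_nonempty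
  have hab0 : a₀ ≤ b := (hab x₀ hx₀).1.trans (hab x₀ hx₀).2
  have hb0 : 0 < b := lt_of_lt_of_le ha hab0
  obtain ⟨B, hBdef⟩ : ∃ B : ℝ, B = (n + 1) * |M| + b := ⟨_, rfl⟩
  have hM0 : 0 ≤ ((n : ℝ) + 1) * |M| := by positivity
  have hbB : b ≤ B := by linarith
  have hB0 : 0 < B := by linarith
  obtain ⟨δ₁, hδ₁, h1⟩ := hSup p Ω q ((2 * B) * ((n + 1) * K + Kθ)) ((ε / 2) ^ 2) hΩ
    (by positivity)
  obtain ⟨δ₂, hδ₂, h2⟩ := hSup p Ω q ((n + 1) * K + K) (ε / 2) hΩ (by positivity)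
  obtain ⟨c₁, hc₁⟩ : ∃ c₁ : ℝ, c₁ = a₀ / (2 * b * B) := ⟨_, rfl⟩
  obtain ⟨c₂, hc₂⟩ : ∃ c₂ : ℝ, c₂ = a₀ / (4 * B) := ⟨_, rfl⟩
  have hc₁0 : 0 < c₁ := by rw [hc₁]; positivity
  have hc₂0 : 0 < c₂ := by rw [hc₂]; positivity
  refine ⟨min (c₁ * δ₁) (c₂ * δ₂), lt_min (by positivity) (by positivity), ?_⟩
  intro f hf hF
  have W := wts_st n c (rr n ρ) a₀ b hr ha hb
  have cθ : ContinuousOn θ (closure Ω) := hθ.c2.toC1.c0
  have cf : ∀ i, i ≤ n → ContinuousOn (f i) (closure Ω) := fun i hi => (hf i hi).1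
  have pf : ∀ i, i ≤ n → ∀ x ∈ closure Ω, 0 < f i x := fun i hi x hx => ((hf i hi).2.2 x hx).1
  have cJ : ContinuousOn (fun x => θ x - θ x * Real.log (θ x)) (closure Ω) :=
    cθ.sub (cθ.mul (cθ.log fun x hx => (hθ.pos x hx).ne'))
  have cI := cont_Ig (f := f) hr ha hb cθ hab cf pf
  obtain ⟨U, hU⟩ : ∃ U : Eu p → ℝ, U = fun x => Pk (fun i => f i x) n := ⟨_, rfl⟩
  have cU : ContinuousOn U (closure Ω) := by
    rw [hU]
    exact cont_Pk cf le_rfl
  have U0 : ∀ x ∈ closure Ω, 0 < U x := by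
    intro x hx
    rw [hU]
    exact Pk_pos (fun i hi => pf i hi x hx) le_rfl
  have fU : ∀ x ∈ closure Ω, f 0 x ≤ U x := by
    intro x hx
    have h3 := Pk_le (a := fun i => f i x) (fun i hi => pf i hi x hx) (Nat.zero_le n)
    rw [Pk_zero] at h3
    rw [hU]
    exact h3
  have UB : ∀ x ∈ closure Ω, U x ≤ B := by
    intro x hx
    have h3 : Pk (fun i => f i x) n ≤ ∑ _i ∈ Finset.range (n + 1), |M| := by
      unfold Pk
      exact Finset.sum_le_sum fun i hi =>
        ((hf i (mem_le le_rfl hi)).2.2 x hx).2.trans (le_abs_self M)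
    rw [Finset.sum_const, Finset.card_range, nsmul_eq_mul] at h3
    push_cast at h3
    rw [hU, hBdef]
    show Pk (fun i => f i x) n ≤ _
    linarith
  have LU : LipOn Ω ((n + 1) * K) U := by
    intro x hx y hy
    rw [hU]
    show |Pk (fun i => f i x) n - Pk (fun i => f i y) n| ≤ _
    unfold Pk
    rw [← Finset.sum_sub_distrib]
    refine (Finset.abs_sum_le_sum_abs _ _).trans ?_
    refine (Finset.sum_le_sum fun i hi => (hf i (mem_le le_rfl hi)).2.1 x hx y hy).trans ?_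
    rw [Finset.sum_const, Finset.card_range, nsmul_eq_mul]
    push_cast
    linarith
  -- the two functions
  have L1 : LipOn Ω ((2 * B) * ((n + 1) * K + Kθ)) (fun x => (U x - θ x) ^ 2) := by
    intro x hx y hy
    have e : (U x - θ x) ^ 2 - (U y - θ y) ^ 2 =
        ((U x - θ x) + (U y - θ y)) * ((U x - U y) - (θ x - θ y)) := by ring
    show |(U x - θ x) ^ 2 - (U y - θ y) ^ 2| ≤ _
    rw [e, abs_mul, mul_assoc]
    have g1 : |(U x - θ x) + (U y - θ y)| ≤ 2 * B := by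
      have a1 := U0 x hx
      have a2 := U0 y hy
      have a3 := UB x hx
      have a4 := UB y hy
      have a5 := hab x hx
      have a6 := hab y hy
      rw [abs_le]
      constructor <;> linarith
    have g2 : |(U x - U y) - (θ x - θ y)| ≤ ((n + 1) * K + Kθ) * ‖x - y‖ := by
      have a1 := LU x hx y hy
      have a2 := hLθ x hx y hy
      have a3 := abs_sub (U x - U y) (θ x - θ y)
      nlinarith
    exact mul_le_mul g1 g2 (abs_nonneg _) (by linarith)
  have L2 : LipOn Ω ((n + 1) * K + K) (fun x => U x - f 0 x) := by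
    intro x hx y hy
    have e : (U x - f 0 x) - (U y - f 0 y) = (U x - U y) - (f 0 x - f 0 y) := by ring
    show |(U x - f 0 x) - (U y - f 0 y)| ≤ _
    rw [e]
    have a1 := LU x hx y hy
    have a2 := (hf 0 (Nat.zero_le n)).2.1 x hx y hy
    have a3 := abs_sub (U x - U y) (f 0 x - f 0 y)
    nlinarith
  -- the pointwise inequality
  have key : ∀ x ∈ closure Ω, c₁ * (U x - θ x) ^ 2 + c₂ * (U x - f 0 x) ≤
      Ig n c (rr n ρ) (fun k => bet c (rr n ρ) b k (θ x)) (Af a₀ b (θ x)) (fun i => f i x)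
        - (θ x - θ x * Real.log (θ x)) := by
    intro x hx
    obtain ⟨-, ⟨hA, -⟩, -, hβ, hsum, -⟩ := W (θ x) (hab x hx).1 (hab x hx).2
    have px : ∀ i, i ≤ n → 0 < f i x := fun i hi => pf i hi x hx
    have g1 := pt_main (a := fun i => f i x) hr hA hβ hsum px
    have g2 := pt_quad ha (hab x hx).1 (hab x hx).2 hbB (U0 x hx) (UB x hx)
    have g3 := pt_lin (β := bet c (rr n ρ) b 0 (θ x)) ha (hab x hx).1
      (bet_zero hr ha hb (hab x hx).1 (hab x hx).2) (px 0 (Nat.zero_le n)) (fU x hx) (UB x hx)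
    rw [← hc₁] at g2
    rw [← hc₂] at g3
    have g4 : Pk (fun i => f i x) n = U x := by rw [hU]
    rw [g4] at g1
    linarith
  have cD1 : ContinuousOn (fun x => c₁ * (U x - θ x) ^ 2) (closure Ω) :=
    continuousOn_const.mul ((cU.sub cθ).pow 2)
  have cD2 : ContinuousOn (fun x => c₂ * (U x - f 0 x)) (closure Ω) :=
    continuousOn_const.mul (cU.sub (cf 0 (Nat.zero_le n)))
  have hint : ∫ x in Ω, (c₁ * (U x - θ x) ^ 2 + c₂ * (U x - f 0 x)) <
      min (c₁ * δ₁) (c₂ * δ₂) := by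
    have g1 := setIntegral_mono_on (μ := volume) (hΩ.integrableOn (cD1.add cD2))
      (hΩ.integrableOn (cI.sub cJ)) hΩ.measurableSet
      (fun x hx => key x (subset_closure hx))
    have g2 : ∫ x in Ω, (Ig n c (rr n ρ) (fun k => bet c (rr n ρ) b k (θ x)) (Af a₀ b (θ x))
        (fun i => f i x) - (θ x - θ x * Real.log (θ x))) =
        FuT Ω n c ρ a₀ b θ f - FuE Ω θ := by
      rw [integral_sub (hΩ.integrableOn cI) (hΩ.integrableOn cJ)]
      rfl
    have g3 : ∫ x in Ω, (c₁ * (U x - θ x) ^ 2 + c₂ * (U x - f 0 x)) ≤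
        FuT Ω n c ρ a₀ b θ f - FuE Ω θ := by
      rw [← g2]
      exact g1
    linarith
  have i1 : ∫ x in Ω, |(U x - θ x) ^ 2| < δ₁ := by
    have g1 : ∫ x in Ω, c₁ * |(U x - θ x) ^ 2| ≤
        ∫ x in Ω, (c₁ * (U x - θ x) ^ 2 + c₂ * (U x - f 0 x)) := by
      refine setIntegral_mono_on (hΩ.integrableOn ?_) (hΩ.integrableOn (cD1.add cD2))
        hΩ.measurableSet ?_
      · exact continuousOn_const.mul ((cU.sub cθ).pow 2).abs
      · intro x hx
        rw [abs_of_nonneg (sq_nonneg _)]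
        have := mul_nonneg hc₂0.le (sub_nonneg.mpr (fU x (subset_closure hx)))
        linarith
    rw [integral_const_mul] at g1
    have g2 := lt_of_le_of_lt g1 (lt_of_lt_of_le hint (min_le_left _ _))
    exact lt_of_mul_lt_mul_left g2 hc₁0.le
  have i2 : ∫ x in Ω, |U x - f 0 x| < δ₂ := by
    have g1 : ∫ x in Ω, c₂ * |U x - f 0 x| ≤
        ∫ x in Ω, (c₁ * (U x - θ x) ^ 2 + c₂ * (U x - f 0 x)) := by
      refine setIntegral_mono_on (hΩ.integrableOn ?_) (hΩ.integrableOn (cD1.add cD2))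
        hΩ.measurableSet ?_
      · exact continuousOn_const.mul (cU.sub (cf 0 (Nat.zero_le n))).abs
      · intro x hx
        rw [abs_of_nonneg (sub_nonneg.mpr (fU x (subset_closure hx)))]
        have := mul_nonneg hc₁0.le (sq_nonneg (U x - θ x))
        linarith
    rw [integral_const_mul] at g1
    have g2 := lt_of_le_of_lt g1 (lt_of_lt_of_le hint (min_le_right _ _))
    exact lt_of_mul_lt_mul_left g2 hc₂0.le
  have j1 := h1 _ L1 i1
  have j2 := h2 _ L2 i2
  intro x hx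
  have k1 : |U x - θ x| < ε / 2 := by
    have := j1 x hx
    rw [abs_of_nonneg (sq_nonneg _)] at this
    exact abs_lt_of_sq_lt_sq this (by positivity)
  have k2 : U x - f 0 x < ε / 2 := lt_of_le_of_lt (le_abs_self _) (j2 x hx)
  have k3 := fU x hx
  constructor
  · rw [abs_lt] at k1 ⊢
    constructor <;> linarith
  · intro i hi1 hin
    have k4 : f 0 x + f i x ≤ U x := by
      rw [hU]
      show f 0 x + f i x ≤ ∑ j ∈ Finset.range (n + 1), f j x
      have hne : (0 : ℕ) ≠ i := by omega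
      rw [← Finset.sum_pair hne (f := fun j => f j x)]
      refine Finset.sum_le_sum_of_subset_of_nonneg ?_
        (fun j hj _ => (pf j (mem_le le_rfl hj) x hx).le)
      intro j hj
      rw [Finset.mem_insert, Finset.mem_singleton] at hj
      rw [Finset.mem_range]
      omega
    linarith

end Pool.Agent.Lib.MP_4fbe7c_an.ND.H31
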