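import Pool.Agent.Lib.MP_4fbe7c_an.ND.Base
import Pool.Agent.Lib.MP_4fbe7c_an.UL.H32.Eta
import Pool.Agent.Lib.MP_4fbe7c_an.UL.H56.Wts

/-!
Project ND, module LOW (helper31): the functional is at least its value at the steady state.
Also the pointwise inequalities used in LOB.
-/

set_option autoImplicit false

open Set MeasureTheory

namespace Pool.Agent.Lib.MP_4fbe7c_an.ND.H31

open Pool.Agent.Lib.MP_4fbe7c_an.UL Pool.Agent.Lib.MP_4fbe7c_an.ND

theorem eta_st : EtaStatement := UL.H32.eta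
theorem wts_st : WtsStatement := UL.H56.wts eta_st

/-- `θ - θ log θ ≤ U - θ log U`. -/
theorem pt_log {θ U : ℝ} (hθ : 0 < θ) (hU : 0 < U) :
    θ - θ * Real.log θ ≤ U - θ * Real.log U := by
  have h1 : Real.log (U / θ) ≤ U / θ - 1 := Real.log_le_sub_one_of_pos (div_pos hU hθ)
  rw [Real.log_div hU.ne' hθ.ne'] at h1
  have h2 := mul_le_mul_of_nonneg_left h1 hθ.le
  have h3 : θ * (U / θ - 1) = U - θ := by field_simp
  rw [h3] at h2
  linarith

/-- `log P - log Q - 1 + Q / P ≥ 0`. -/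
theorem pt_rel {P Q : ℝ} (hP : 0 < P) (hQ : 0 < Q) :
    0 ≤ Real.log P - Real.log Q - 1 + Q / P := by
  have h1 : Real.log (Q / P) ≤ Q / P - 1 := Real.log_le_sub_one_of_pos (div_pos hQ hP)
  rw [Real.log_div hQ.ne' hP.ne'] at h1
  linarith

theorem mem_le {n k i : ℕ} (hk : k ≤ n) (hi : i ∈ Finset.range (k + 1)) : i ≤ n :=
  (Nat.lt_succ_iff.mp (Finset.mem_range.mp hi)).trans hk

theorem Pk_pos {n : ℕ} {a : ℕ → ℝ} (ha : ∀ i, i ≤ n → 0 < a i) {k : ℕ} (hk : k ≤ n) :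
    0 < Pk a k :=
  Finset.sum_pos (fun i hi => ha i (mem_le hk hi)) ⟨0, Finset.mem_range.mpr (Nat.succ_pos k)⟩

theorem Pk_le {n : ℕ} {a : ℕ → ℝ} (ha : ∀ i, i ≤ n → 0 < a i) {k : ℕ} (hk : k ≤ n) :
    Pk a k ≤ Pk a n :=
  Finset.sum_le_sum_of_subset_of_nonneg (Finset.range_subset_range.mpr (by omega))
    (fun i hi _ => (ha i (mem_le le_rfl hi)).le)

theorem Pk_zero (a : ℕ → ℝ) : Pk a 0 = a 0 := by simp [Pk]

/-- The integrand of the functional, at a point. -/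
noncomputable def Ig (n c : ℕ) (r β : ℕ → ℝ) (A : ℝ) (a : ℕ → ℝ) : ℝ :=
  Pk a n - (∑ k ∈ Finset.range (n + 1), β k * Real.log (Pk a k))
    + ∑ j ∈ Finset.Ico c n, A * (nu r (j + 1) * (Real.log (Pk a (j + 1))
        - Real.log (Pk a c) - 1 + Pk a c / Pk a (j + 1)))

theorem memj {n c j : ℕ} (hj : j ∈ Finset.Ico c n) : c ≤ n ∧ j + 1 ≤ n := by
  have := Finset.mem_Ico.mp hj
  omega

/-- The pointwise lower bound. -/
theorem pt_main {n c : ℕ} {r β : ℕ → ℝ} {A θ : ℝ} {a : ℕ → ℝ} (hr : Rts n c r)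
    (hA : 0 ≤ A) (hβ : ∀ k, k ≤ n → 0 ≤ β k) (hsum : ∑ k ∈ Finset.range (n + 1), β k = θ)
    (ha : ∀ i, i ≤ n → 0 < a i) :
    Pk a n - θ * Real.log (Pk a n) + β 0 * (Real.log (Pk a n) - Real.log (a 0)) ≤
      Ig n c r β A a := by
  have hterm : ∀ k ∈ Finset.range (n + 1),
      0 ≤ β k * (Real.log (Pk a n) - Real.log (Pk a k)) := by
    intro k hk
    have hk' := mem_le le_rfl hk
    refine mul_nonneg (hβ k hk') ?_
    have := Real.log_le_log (Pk_pos ha hk') (Pk_le ha hk')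
    linarith
  have s1 : β 0 * (Real.log (Pk a n) - Real.log (a 0)) ≤
      ∑ k ∈ Finset.range (n + 1), β k * (Real.log (Pk a n) - Real.log (Pk a k)) := by
    have := Finset.single_le_sum hterm (Finset.mem_range.mpr (Nat.succ_pos n))
    rwa [Pk_zero] at this
  have s1' : ∑ k ∈ Finset.range (n + 1), β k * (Real.log (Pk a n) - Real.log (Pk a k)) =
      θ * Real.log (Pk a n) - ∑ k ∈ Finset.range (n + 1), β k * Real.log (Pk a k) := by
    rw [← hsum, Finset.sum_mul, ← Finset.sum_sub_distrib]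
    exact Finset.sum_congr rfl fun k _ => by ring
  have s2 : 0 ≤ ∑ j ∈ Finset.Ico c n, A * (nu r (j + 1) * (Real.log (Pk a (j + 1))
        - Real.log (Pk a c) - 1 + Pk a c / Pk a (j + 1))) := by
    refine Finset.sum_nonneg fun j hj => ?_
    obtain ⟨hcn, hjn⟩ := memj hj
    refine mul_nonneg hA (mul_nonneg ?_ ?_)
    · unfold nu
      linarith [hr.ranti (j + 1) hjn]
    · exact pt_rel (Pk_pos ha hjn) (Pk_pos ha hcn)
  unfold Ig
  linarith

section cont

variable {p : ℕ} {Ω : Set (Eu p)} {n : ℕ} {f : ℕ → Eu p → ℝ}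

theorem cont_Pk (hf : ∀ i, i ≤ n → ContinuousOn (f i) (closure Ω)) {k : ℕ} (hk : k ≤ n) :
    ContinuousOn (fun x => Pk (fun i => f i x) k) (closure Ω) :=
  continuousOn_finsetSum _ fun i hi => hf i (mem_le hk hi)

theorem cont_log (hf : ∀ i, i ≤ n → ContinuousOn (f i) (closure Ω))
    (hp : ∀ i, i ≤ n → ∀ x ∈ closure Ω, 0 < f i x) {k : ℕ} (hk : k ≤ n) :
    ContinuousOn (fun x => Real.log (Pk (fun i => f i x) k)) (closure Ω) :=
  (cont_Pk hf hk).log fun x hx => (Pk_pos (fun i hi => hp i hi x hx) hk).ne'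

theorem cont_Ig {c : ℕ} {ρ : ℕ → ℝ} {a₀ b : ℝ} {θ : Eu p → ℝ} (hr : Rts n c (rr n ρ))
    (ha : 0 < a₀) (hb : b ≤ 1001 / 1000 * a₀) (cθ : ContinuousOn θ (closure Ω))
    (hab : ∀ x ∈ closure Ω, a₀ ≤ θ x ∧ θ x ≤ b)
    (hf : ∀ i, i ≤ n → ContinuousOn (f i) (closure Ω))
    (hp : ∀ i, i ≤ n → ∀ x ∈ closure Ω, 0 < f i x) :
    ContinuousOn (fun x => Ig n c (rr n ρ) (fun k => bet c (rr n ρ) b k (θ x))
      (Af a₀ b (θ x)) (fun i => f i x)) (closure Ω) := by
  have W := wts_st n c (rr n ρ) a₀ b hr ha hb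
  have cβ : ∀ k, k ≤ n → ContinuousOn (fun x => bet c (rr n ρ) b k (θ x)) (closure Ω) := by
    intro k hk x hx
    have h1 := ((W (θ x) (hab x hx).1 (hab x hx).2).2.2.2.2.2 k hk).continuousAt
    exact ContinuousAt.comp_continuousWithinAt (g := bet c (rr n ρ) b k) h1 (cθ x hx)
  have cA : ContinuousOn (fun x => Af a₀ b (θ x)) (closure Ω) := by
    intro x hx
    have h1 := (W (θ x) (hab x hx).1 (hab x hx).2).2.2.1.continuousAt
    exact ContinuousAt.comp_continuousWithinAt (g := Af a₀ b) h1 (cθ x hx)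
  unfold Ig
  refine ((cont_Pk hf le_rfl).sub (continuousOn_finsetSum _ fun k hk => ?_)).add
      (continuousOn_finsetSum _ fun j hj => ?_)
  · exact (cβ k (mem_le le_rfl hk)).mul (cont_log hf hp (mem_le le_rfl hk))
  · obtain ⟨hcn, hjn⟩ := memj hj
    exact cA.mul (continuousOn_const.mul ((((cont_log hf hp hjn).sub (cont_log hf hp hcn)).sub
      continuousOn_const).add ((cont_Pk hf hcn).div (cont_Pk hf hjn)
        fun x hx => (Pk_pos (fun i hi => hp i hi x hx) hjn).ne')))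

end cont

/-- LOW. -/
theorem low_st : LowStatement := by
  intro p Ω q m a₀ b θ θ' θ'' n c ρ f hΩ _ hr hθ ha hb hab hf
  have W := wts_st n c (rr n ρ) a₀ b hr ha hb
  have cθ : ContinuousOn θ (closure Ω) := hθ.c2.toC1.c0
  have cf : ∀ i, i ≤ n → ContinuousOn (f i) (closure Ω) := fun i hi => (hf i hi).1
  have pf : ∀ i, i ≤ n → ∀ x ∈ closure Ω, 0 < f i x := fun i hi => (hf i hi).2
  have c1 : ContinuousOn (fun x => θ x - θ x * Real.log (θ x)) (closure Ω) :=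
    cθ.sub (cθ.mul (cθ.log fun x hx => (hθ.pos x hx).ne'))
  have c2 := cont_Ig (f := f) hr ha hb cθ hab cf pf
  unfold FuE FuT FuN
  refine setIntegral_mono_on (hΩ.integrableOn c1) (hΩ.integrableOn c2) hΩ.measurableSet ?_
  intro x hx'
  have hx : x ∈ closure Ω := subset_closure hx'
  obtain ⟨-, ⟨hA, -⟩, -, hβ, hsum, -⟩ := W (θ x) (hab x hx).1 (hab x hx).2
  have px : ∀ i, i ≤ n → 0 < f i x := fun i hi => pf i hi x hx
  have h1 := pt_main (a := fun i => f i x) hr hA hβ hsum px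
  have h2 := pt_log (hθ.pos x hx) (Pk_pos px le_rfl)
  have h3 : 0 ≤ bet c (rr n ρ) b 0 (θ x) *
      (Real.log (Pk (fun i => f i x) n) - Real.log (f 0 x)) := by
    refine mul_nonneg (hβ 0 (Nat.zero_le n)) ?_
    have h4 := Pk_le px (Nat.zero_le n)
    rw [Pk_zero] at h4
    linarith [Real.log_le_log (px 0 (Nat.zero_le n)) h4]
  unfold Ig at h1
  linarith

end Pool.Agent.Lib.MP_4fbe7c_an.ND.H31
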